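import Pool.Agent.Helper13.Sq.Main

/-!
# Height pairings on threefolds

`Heights S`, for rational Chow rings `S` of smooth projective varieties over `ℚ̄` (with the cycles
homologous to zero): ample classes, points and the height pairing of Beilinson and Bloch.
`Heights.Standard`: standard properties, for threefolds and their blow-ups.
-/

set_option autoImplicit false
set_option linter.unusedVariables false

open CategoryTheory CategoryTheory.Limits Pool.Agent.Helper81.Smash Pool.Agent.Helper13.Sq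

namespace Pool.Agent.Helper91.Bei

universe u v w

variable {𝒱 : Type u} [Category.{v} 𝒱] [HasFiniteProducts 𝒱]

/-- the group `Ch^i(X)^0` of cycles of codimension `i` homologous to zero -/
def homGr (S : HomCycles.{u, v, w} 𝒱) (X : 𝒱) (i : ℕ) : Set (S.A X) :=
  {x | x ∈ S.gr X i ∧ x ∈ S.hom X}

/-- Ample classes, classes of points, and the height pairing. -/
structure Heights (S : HomCycles.{u, v, w} 𝒱) where
  /-- `L` is the class of an ample divisor -/
  Ample : ∀ {X : 𝒱}, S.A X → Prop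
  /-- `c` is the class of a point -/
  IsPoint : ∀ {X : 𝒱}, S.A X → Prop
  /-- the height pairing of cycles homologous to zero -/
  ht : ∀ {X : 𝒱}, S.A X → S.A X → ℝ

namespace Heights

variable {S : HomCycles.{u, v, w} 𝒱} (H : Heights S) (K : Threefolds S)

/-- Beilinson's Q1 for `(X, L)` -/
def Lefschetz (H : Heights S) {X : 𝒱} (L : S.A X) : Prop :=
  ∀ i : ℕ, 1 ≤ i → 2 * i ≤ S.dim X + 1 →
    Set.BijOn (fun x => L ^ (S.dim X + 1 - 2 * i) * x) (homGr S X i) (homGr S X (S.dim X + 1 - i))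

/-- Beilinson's Q2 for `(X, L)` -/
def Index {X : 𝒱} (L : S.A X) : Prop :=
  ∀ i : ℕ, 1 ≤ i → 2 * i ≤ S.dim X + 1 → ∀ x ∈ homGr S X i, x ≠ 0 →
    L ^ (S.dim X + 2 - 2 * i) * x = 0 → 0 < (-1 : ℝ) ^ i * H.ht x (L ^ (S.dim X + 1 - 2 * i) * x)

/-- Neron and Tate: positivity in codimension 1 on threefolds -/
def NeronTate : Prop :=
  ∀ (X : 𝒱) (L : S.A X), S.dim X = 3 → H.Ample L → ∀ x ∈ homGr S X 1, x ≠ 0 → H.ht x (L ^ 2 * x) < 0

/-- the height pairing is compatible with blow-ups (projection formula) -/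
def HtPull : Prop :=
  ∀ {Y X : 𝒱} (f : Y ⟶ X), K.IsBlowup f → ∀ x ∈ homGr S X 2,
    H.ht (pullB f x) (pullB f x) = H.ht x x

/-- For a blow-up `f` of a threefold in a point or in a smooth curve, with exceptional divisor `E`,
and an ample class `L`, the class `N f^* L - E` is ample for some `N`; and `f^* z · E = 0` for `z` of
codimension 2. -/
def AmpleBlowup : Prop :=
  ∀ {Y X : 𝒱} (f : Y ⟶ X), K.IsBlowup f → S.dim X = 3 → ∀ L : S.A X, H.Ample L →
    ∃ (N : ℕ) (E : S.A Y), (∀ z : S.A X, IsTwo z → pullB f z * E = 0) ∧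
      H.Ample (mult N (pullB f L) - E)

/-- `f : Y ⟶ X` is the blow-up of a point with class `c`, with exceptional divisor `E` -/
structure PointStep {Y X : 𝒱} (c : S.A X) (f : Y ⟶ X) (E : S.A Y) : Prop where
  isBlowup : K.IsBlowup f
  isDiv : IsDiv E
  mul_eq : ∀ x : S.A X, IsDiv x → pullB f x * E = 0
  cube_eq : E ^ 3 = pullB f c
  point : ∀ c' : S.A X, H.IsPoint c' → H.IsPoint (pullB f c')
  pic : ∀ ξ ∈ homGr S Y 1, ∃ η ∈ homGr S X 1, ξ = pullB f η
  ample : ∀ L : S.A X, H.Ample L → ∃ N : ℕ, 0 < N ∧ H.Ample (mult N (pullB f L) - E)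

/-- points of threefolds can be blown up -/
def HasPointSteps : Prop :=
  ∀ (X : 𝒱) (c : S.A X), S.dim X = 3 → H.IsPoint c →
    ∃ (Y : 𝒱) (f : Y ⟶ X) (E : S.A Y), H.PointStep K c f E

/-- the cycles of codimension 3 on a threefold are combinations of points -/
def ZeroCycles : Prop :=
  ∀ (X : 𝒱) (z : S.A X), S.dim X = 3 → z ∈ S.gr X 3 → ∃ (n : ℕ) (l l' : List (S.A X)), 0 < n ∧
    (∀ c ∈ l, H.IsPoint c) ∧ (∀ c ∈ l', H.IsPoint c) ∧ mult n z = l.sum - l'.sum

/-- standard properties of the height pairing on threefolds -/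
structure Standard : Prop where
  pull_gr : ∀ {Y X : 𝒱} (f : Y ⟶ X) (i : ℕ) (a : S.A X), a ∈ S.gr X i → pullB f a ∈ S.gr Y i
  ample_div : ∀ {X : 𝒱} (L : S.A X), H.Ample L → IsDiv L
  ht_zero : ∀ {X : 𝒱} (x : S.A X), H.ht x 0 = 0
  neronTate : H.NeronTate
  htPull : H.HtPull K
  ampleBlowup : H.AmpleBlowup K
  pointSteps : H.HasPointSteps K
  zeroCycles : H.ZeroCycles

/-- Beilinson's Q1 and Q2 for all threefolds and all ample classes -/
def BeilinsonThreefolds : Prop :=
  ∀ (X : 𝒱) (L : S.A X), S.dim X = 3 → H.Ample L → H.Lefschetz L ∧ H.Index L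

/-- two statements on the powers of one divisor on a threefold -/
def BeilinsonPowers : Prop :=
  ∀ (Y : 𝒱) (L D : S.A Y), S.dim Y = 3 → H.Ample L → IsDiv D →
    (D ^ 3 ∈ S.hom Y → ∃ ξ ∈ homGr S Y 1, D ^ 3 = L ^ 2 * ξ) ∧
    (D ^ 2 ∈ S.hom Y → L * D ^ 2 = 0 → D ^ 2 ≠ 0 → 0 < H.ht (D ^ 2) (D ^ 2))

end Heights

end Pool.Agent.Helper91.Bei
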