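import Pool.Agent.Helper91.Bei.Defs

/-!
# Beilinson's conjectures for threefolds and powers of divisors
-/

set_option autoImplicit false
set_option linter.unusedVariables false

open CategoryTheory CategoryTheory.Limits Pool.Agent.Helper81.Smash Pool.Agent.Helper13.Sq

namespace Pool.Agent.Helper91.Bei

universe u v w

variable {𝒱 : Type u} [Category.{v} 𝒱] [HasFiniteProducts 𝒱] {S : HomCycles.{u, v, w} 𝒱}
  (K : Threefolds S) (T : K.Standard) (H : Heights S) (h : H.Standard K)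

include T in
/-- pull-back along a blow-up is injective -/
lemma blowup_injective {Y X : 𝒱} {f : Y ⟶ X} (hf : K.IsBlowup f) {a : S.A X}
    (ha : S.pull f a = 0) : a = 0 := by
  have h1 : S.smash (S.pull f a) 1 = 0 := by
    unfold Cycles.smash
    simp [ha]
  rw [smash_pull] at h1
  have h2 : S.smash a 1 = 0 := T.injective f hf 1 _ h1
  have h3 : S.pull (coord X (0 : Fin 1)) a = 0 := by
    unfold Cycles.smash at h2
    simpa using h2
  let σ : X ⟶ power X 1 := Pi.lift fun _ => 𝟙 X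
  have h4 : σ ≫ coord X (0 : Fin 1) = 𝟙 X := by
    simp only [σ, coord]
    exact limit.lift_π _ _
  have h5 := congrArg (S.pull σ) h3
  rwa [← S.pull_comp, h4, S.pull_id, map_zero] at h5

include T in
lemma iterated_injective {Y X : 𝒱} {f : Y ⟶ X} (hf : K.IteratedBlowup f) {a : S.A X}
    (ha : S.pull f a = 0) : a = 0 := by
  induction hf with
  | id X => rwa [S.pull_id] at ha
  | comp g f hg hf ih =>
    rw [S.pull_comp] at ha
    exact ih (blowup_injective K T hg ha)

include h in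
lemma pull_gr {Y X : 𝒱} (f : Y ⟶ X) {i : ℕ} {a : S.A X} (ha : a ∈ S.gr X i) :
    S.pull f a ∈ S.gr Y i :=
  h.pull_gr f i a ha

include h in
lemma iterated_ht {Y X : 𝒱} {f : Y ⟶ X} (hf : K.IteratedBlowup f) {x : S.A X}
    (hx : x ∈ homGr S X 2) : H.ht (S.pull f x) (S.pull f x) = H.ht x x := by
  induction hf with
  | id X => rw [S.pull_id]
  | comp g f hg hf ih =>
    rw [S.pull_comp, ← ih hx]
    exact h.htPull g hg _ ⟨pull_gr K H h f hx.1, S.pull_hom f hx.2⟩

include T h in
/-- an ample class on an iterated blow-up -/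
lemma iterated_ample {Y X : 𝒱} {f : Y ⟶ X} (hf : K.IteratedBlowup f) (hX : S.dim X = 3) {L : S.A X}
    (hL : H.Ample L) {x : S.A X} (hx : x ∈ S.gr X 2) (hLx : L * x = 0) :
    ∃ L' : S.A Y, H.Ample L' ∧ L' * S.pull f x = 0 := by
  induction hf with
  | id X => exact ⟨L, hL, by rw [S.pull_id, hLx]⟩
  | comp g f hg hf ih =>
    obtain ⟨L', hL', h1⟩ := ih hX hL hx hLx
    obtain ⟨N, E, hE, hA⟩ := h.ampleBlowup g hg ((iterated_dim K T hf).trans hX) L' hL'
    refine ⟨_, hA, ?_⟩
    have h2 : S.pull g (S.pull f x) * E = 0 := hE _ (pull_gr K H h f hx)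
    have h3 : S.pull g L' * S.pull g (S.pull f x) = 0 := by rw [← map_mul, h1, map_zero]
    unfold mult pullB
    rw [S.pull_comp, sub_mul, mul_assoc, h3, mul_zero, mul_comm E, h2, sub_zero]

/-- `f` is a composition of blow-ups of points -/
structure Nice {Y X : 𝒱} (f : Y ⟶ X) : Prop where
  dim : S.dim Y = S.dim X
  inj : ∀ a : S.A X, S.pull f a = 0 → a = 0
  point : ∀ c : S.A X, H.IsPoint c → H.IsPoint (S.pull f c)
  pic : ∀ ξ ∈ homGr S Y 1, ∃ η ∈ homGr S X 1, ξ = S.pull f η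
  ample : ∀ L : S.A X, H.Ample L → ∃ (N : ℕ) (L' : S.A Y), 0 < N ∧ H.Ample L' ∧
    ∀ η ∈ S.gr X 1, L' ^ 2 * S.pull f η = (N : S.A Y) ^ 2 * S.pull f (L ^ 2 * η)

/-- `z` is a cube after blow-ups of points -/
def Cube {X : 𝒱} (z : S.A X) : Prop :=
  ∃ (Y : 𝒱) (f : Y ⟶ X) (D : S.A Y), Nice H f ∧ D ∈ S.gr Y 1 ∧ D ^ 3 = S.pull f z

lemma cube_zero (X : 𝒱) : Cube H (0 : S.A X) := by
  refine ⟨X, 𝟙 X, 0, ⟨rfl, fun a ha => by rwa [S.pull_id] at ha, fun c hc => by rwa [S.pull_id],
    fun ξ hξ => ⟨ξ, hξ, (S.pull_id X ξ).symm⟩, fun L hL => ⟨1, L, one_pos, hL, fun η _ => ?_⟩⟩,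
    (S.gr X 1).zero_mem, ?_⟩
  · rw [S.pull_id, S.pull_id]
    simp
  · rw [map_zero]
    simp

include T h in
lemma cube_step {X : 𝒱} (hX : S.dim X = 3) {z c : S.A X} (hz : Cube H z) (hc : H.IsPoint c) (ε : ℤ)
    (hε : ε ^ 3 = ε) : Cube H (z + (ε : S.A X) * c) := by
  obtain ⟨Y, f, D, hf, hD1, hD⟩ := hz
  obtain ⟨W, g, E, hg⟩ := h.pointSteps Y (S.pull f c) (hf.dim.trans hX) (hf.point c hc)
  have hE : ∀ x ∈ S.gr Y 1, S.pull g x * E = 0 := hg.mul_eq
  refine ⟨W, g ≫ f, S.pull g D + (ε : S.A W) * E, ⟨?_, ?_, ?_, ?_, ?_⟩, ?_, ?_⟩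
  · rw [T.dim_blowup g hg.isBlowup, hf.dim]
  · intro a ha
    rw [S.pull_comp] at ha
    exact hf.inj a (blowup_injective K T hg.isBlowup ha)
  · intro c' hc'
    rw [S.pull_comp]
    exact hg.point _ (hf.point c' hc')
  · intro ξ hξ
    obtain ⟨η, hη, rfl⟩ := hg.pic ξ hξ
    obtain ⟨θ, hθ, rfl⟩ := hf.pic η hη
    exact ⟨θ, hθ, (S.pull_comp g f θ).symm⟩
  · intro L hL
    obtain ⟨N, L', hN, hL', h1⟩ := hf.ample L hL
    obtain ⟨M, hM, hA⟩ := hg.ample L' hL'
    refine ⟨M * N, _, Nat.mul_pos hM hN, hA, fun η hη => ?_⟩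
    have h2 : S.pull g (S.pull f η) * E = 0 := hE _ (pull_gr K H h f hη)
    have h3 : S.pull g (L' ^ 2) * S.pull g (S.pull f η) =
        (N : S.A W) ^ 2 * S.pull g (S.pull f (L ^ 2 * η)) := by
      rw [← map_mul, h1 η hη, map_mul, map_pow, map_natCast]
    unfold mult pullB
    rw [S.pull_comp, S.pull_comp]
    have h4 : ((M : S.A W) * S.pull g L' - E) ^ 2 * S.pull g (S.pull f η) =
        (M : S.A W) ^ 2 * (S.pull g (L' ^ 2) * S.pull g (S.pull f η)) +
          (E - 2 * (M : S.A W) * S.pull g L') * (S.pull g (S.pull f η) * E) := by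
      rw [map_pow]
      ring
    rw [h4, h2, h3, mul_zero, add_zero, Nat.cast_mul]
    ring
  · refine (S.gr W 1).add_mem (T.pull_div g _ hD1) ?_
    have : ((ε : ℤ) : S.A W) * E = (ε : ℚ) • E := by
      rw [Algebra.smul_def, map_intCast]
    rw [this]
    exact (S.gr W 1).smul_mem _ hg.isDiv
  · have h1 : S.pull g D * E = 0 := hE D hD1
    have h2 : E ^ 3 = S.pull g (S.pull f c) := hg.cube_eq
    have h3 : (S.pull g D + (ε : S.A W) * E) ^ 3 = S.pull g (D ^ 3) + (ε : S.A W) ^ 3 * E ^ 3 +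
        (3 * S.pull g D * (ε : S.A W) + 3 * (ε : S.A W) ^ 2 * E) * (S.pull g D * E) := by
      rw [map_pow]
      ring
    rw [h3, h1, mul_zero, add_zero, hD, h2, S.pull_comp, map_add, map_add, map_mul, map_mul,
      map_intCast, map_intCast]
    have h4 : (ε : S.A W) ^ 3 = (ε : S.A W) := by
      rw [← Int.cast_pow, hε]
    rw [h4]

include T h in
lemma cube_list {X : 𝒱} (hX : S.dim X = 3) (ε : ℤ) (hε : ε ^ 3 = ε) (l : List (S.A X))
    (hl : ∀ c ∈ l, H.IsPoint c) {z : S.A X} (hz : Cube H z) : Cube H (z + (ε : S.A X) * l.sum) := by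
  induction l with
  | nil => simpa using hz
  | cons c l ih =>
    have h1 := cube_step K T H h hX (ih fun c' hc' => hl c' (List.mem_cons_of_mem _ hc'))
      (hl c List.mem_cons_self) ε hε
    rw [List.sum_cons]
    have h2 : z + (ε : S.A X) * (c + l.sum) = z + (ε : S.A X) * l.sum + (ε : S.A X) * c := by ring
    rw [h2]
    exact h1

include T h in
/-- zero-cycles are cubes of divisors after blow-ups of points -/
theorem exists_cube {X : 𝒱} (hX : S.dim X = 3) {z : S.A X} (hz : z ∈ S.gr X 3) : Cube H z := by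
  obtain ⟨n, l, l', hn, hl, hl', hz'⟩ := h.zeroCycles X z hX hz
  have h1 : ∀ m : ℕ, Cube H ((m : S.A X) * (l.sum - l'.sum)) := by
    intro m
    induction m with
    | zero => simpa using cube_zero H X
    | succ m ih =>
      have h2 := cube_list K T H h hX (-1) (by norm_num) l' hl'
        (cube_list K T H h hX 1 (by norm_num) l hl ih)
      have h3 : ((m + 1 : ℕ) : S.A X) * (l.sum - l'.sum) = (m : S.A X) * (l.sum - l'.sum) +
          ((1 : ℤ) : S.A X) * l.sum + ((-1 : ℤ) : S.A X) * l'.sum := by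
        push_cast
        ring
      rw [h3]
      exact h2
  obtain ⟨Y, f, D, hf, hD1, hD⟩ := h1 (n ^ 2)
  refine ⟨Y, f, (n : ℚ)⁻¹ • D, hf, (S.gr Y 1).smul_mem _ hD1, ?_⟩
  unfold mult at hz'
  rw [smul_pow, hD, ← hz', map_mul, map_mul, map_natCast, map_natCast, Nat.cast_pow, ← mul_assoc,
    ← pow_succ, Algebra.smul_def, ← mul_assoc]
  have h4 : algebraMap ℚ (S.A Y) ((n : ℚ)⁻¹ ^ 3) * (n : S.A Y) ^ (2 + 1) = 1 := by
    have : (n : S.A Y) = algebraMap ℚ (S.A Y) (n : ℚ) := by rw [map_natCast]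
    rw [this, ← map_pow, ← map_mul, ← mul_pow, inv_mul_cancel₀ (by exact_mod_cast hn.ne'), one_pow,
      map_one]
  rw [h4, one_mul]

include T h in
/-- **Theorem.** -/
theorem beilinson_iff : H.BeilinsonThreefolds ↔ H.BeilinsonPowers := by
  constructor
  · intro hB Y L D hY hL hD
    obtain ⟨h1, h2⟩ := hB Y L hY hL
    constructor
    · intro hD3
      have h3 := h1 1 le_rfl (by omega)
      rw [hY] at h3
      obtain ⟨ξ, hξ, hξ'⟩ := h3.surjOn ⟨by
        have := S.mul_mem (S.mul_mem hD hD) hD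
        have e : D ^ 3 = D * D * D := by ring
        rw [e]
        exact this, hD3⟩
      exact ⟨ξ, hξ, hξ'.symm⟩
    · intro hD2 hLD hne
      have h3 := h2 2 (by norm_num) (by omega) (D ^ 2) ⟨by
        have e : D ^ 2 = D * D := by ring
        rw [e]
        exact S.mul_mem hD hD, hD2⟩ hne (by rw [hY]; simpa using hLD)
      rw [hY] at h3
      simpa using h3
  · intro hP X L hX hL
    have hNT : ∀ x ∈ homGr S X 1, x ≠ 0 → H.ht x (L ^ 2 * x) < 0 := h.neronTate X L hX hL
    have hLdiv : L ∈ S.gr X 1 := h.ample_div L hL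
    constructor
    · intro i hi1 hi2
      rw [hX] at hi2 ⊢
      have hi : i = 1 ∨ i = 2 := by omega
      rcases hi with rfl | rfl
      · refine ⟨fun x hx => ⟨?_, S.hom X |>.mul_mem_left _ hx.2⟩, fun x hx y hy hxy => ?_,
          fun z hz => ?_⟩
        · have e : (L ^ (3 + 1 - 2 * 1) * x) = L * L * x := by ring
          change L ^ (3 + 1 - 2 * 1) * x ∈ S.gr X (3 + 1 - 1)
          rw [e]
          exact S.mul_mem (S.mul_mem hLdiv hLdiv) hx.1
        · by_contra hne
          have hxy' : L ^ 2 * (x - y) = 0 := by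
            have : L ^ 2 * x = L ^ 2 * y := hxy
            rw [mul_sub, this, sub_self]
          have h1 := hNT (x - y) ⟨(S.gr X 1).sub_mem hx.1 hy.1, (S.hom X).sub_mem hx.2 hy.2⟩
            (sub_ne_zero.mpr hne)
          rw [hxy', h.ht_zero] at h1
          exact lt_irrefl _ h1
        · obtain ⟨Y, f, D, hf, hD1, hD⟩ := exists_cube K T H h hX hz.1
          obtain ⟨N, L', hN, hL', h1⟩ := hf.ample L hL
          obtain ⟨ξ, hξ, hξ'⟩ := (hP Y L' D (hf.dim.trans hX) hL' hD1).1 (by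
            rw [hD]
            exact S.pull_hom f hz.2)
          obtain ⟨η, hη, rfl⟩ := hf.pic ξ hξ
          refine ⟨(N : ℚ) ^ 2 • η, ⟨(S.gr X 1).smul_mem _ hη.1, ?_⟩, ?_⟩
          · rw [Algebra.smul_def]
            exact (S.hom X).mul_mem_left _ hη.2
          · have h2 : S.pull f (z - L ^ 2 * ((N : ℚ) ^ 2 • η)) = 0 := by
              rw [map_sub, ← hD, hξ', h1 η hη.1, mul_smul_comm, map_smul, Algebra.smul_def, map_pow,
                map_natCast, sub_self]
            have h3 := hf.inj _ h2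
            exact (sub_eq_zero.mp h3).symm
      · refine ⟨fun x hx => ?_, fun x _ y _ hxy => ?_, fun z hz => ⟨z, ?_, ?_⟩⟩
        · simpa using hx
        · simpa using hxy
        · simpa using hz
        · simp
    · intro i hi1 hi2 x hx hx0 hLx
      rw [hX] at hi2 hLx ⊢
      have hi : i = 1 ∨ i = 2 := by omega
      rcases hi with rfl | rfl
      · have h1 := hNT x hx hx0
        have e : (3 + 1 - 2 * 1) = 2 := rfl
        rw [e]
        linarith
      · have hLx' : L * x = 0 := by simpa using hLx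
        obtain ⟨Y, f, D, hf, hD1, hD⟩ := exists_square K T X hX x hx.1
        obtain ⟨L', hL', h1⟩ := iterated_ample K T H h hf hX hL hx.1 hLx'
        have hD' : D ^ 2 = S.pull f x := by rw [pow_two, hD]
        have h2 := (hP Y L' D ((iterated_dim K T hf).trans hX) hL' hD1).2 (by
          rw [hD']
          exact S.pull_hom f hx.2) (by rw [hD', h1]) (by
          rw [hD']
          exact fun h0 => hx0 (iterated_injective K T hf h0))
        rw [hD', iterated_ht K H h hf hx] at h2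
        simpa using h2

end Pool.Agent.Helper91.Bei
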